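import Pool.Agent.MP_ca0a54_nt.H24.Spec

/-! Row S1: the imaginary part of the diagonal sum is bounded. -/

open Complex MeasureTheory Filter Topology

namespace Pool.Agent.MP_ca0a54_nt.H79

open Pool.Agent.MP_ca0a54_nt.H24

noncomputable def be (Y ab : ℝ) : ℂ := Y * (Y - I * ab) / (2 * Y - I * ab)

noncomputable def gg (Y ab v : ℝ) : ℂ := be Y ab * (exp (-(I * ab) * v) - exp (-(2 * Y) * v))

noncomputable def ph (e v : ℝ) : ℝ := max 0 (min 1 ((1 - e / 2 - v) / (e / 2)))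

lemma ph_nonneg (e v : ℝ) : 0 ≤ ph e v := le_max_left _ _

lemma ph_le (e v : ℝ) : ph e v ≤ 1 := max_le zero_le_one (min_le_left _ _)

lemma ph_one {e v : ℝ} (he : 0 < e) (hv : v ≤ 1 - e) : ph e v = 1 := by
  have h : 1 ≤ (1 - e / 2 - v) / (e / 2) := by
    rw [le_div_iff₀ (by positivity)]; linarith
  unfold ph
  rw [min_eq_left h, max_eq_right zero_le_one]

lemma ph_zero {e v : ℝ} (he : 0 < e) (hv : 1 - e / 2 ≤ v) : ph e v = 0 := by
  have h : (1 - e / 2 - v) / (e / 2) ≤ 0 :=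
    div_nonpos_of_nonpos_of_nonneg (by linarith) (by positivity)
  unfold ph
  exact max_eq_left ((min_le_right _ _).trans h)

lemma ph_cont (e : ℝ) : Continuous (ph e) := by
  unfold ph; fun_prop

lemma gg_cont (Y ab : ℝ) : Continuous (gg Y ab) := by
  unfold gg; fun_prop

lemma den_ne {Y : ℝ} (hY : 0 < Y) (ab : ℝ) : (2 * Y - I * ab : ℂ) ≠ 0 := by
  intro h
  have := congrArg Complex.re h
  simp at this
  linarith

lemma be_mul {Y : ℝ} (hY : 0 < Y) (ab : ℝ) :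
    be Y ab * (2 * Y - I * ab) = Y * (Y - I * ab) := div_mul_cancel₀ _ (den_ne hY ab)

lemma den_norm (Y ab : ℝ) : 2 * Y ≤ ‖(2 * Y - I * ab : ℂ)‖ := by
  have := Complex.re_le_norm (2 * Y - I * ab : ℂ)
  simpa using this

lemma be_norm {Y : ℝ} (hY : 0 < Y) (ab : ℝ) : ‖be Y ab‖ ≤ Y := by
  unfold be
  have h0 : 0 < ‖(2 * Y - I * ab : ℂ)‖ := norm_pos_iff.2 (den_ne hY ab)
  rw [norm_div, norm_mul, Complex.norm_real, Real.norm_of_nonneg hY.le, div_le_iff₀ h0]
  refine mul_le_mul_of_nonneg_left ?_ hY.le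
  rw [← sq_le_sq₀ (norm_nonneg _) (norm_nonneg _), Complex.sq_norm, Complex.sq_norm,
    Complex.normSq_apply, Complex.normSq_apply]
  simp
  nlinarith

lemma e1_norm (ab v : ℝ) : ‖exp (-(I * ab) * v)‖ = 1 := by
  rw [Complex.norm_exp]; simp

lemma e2_norm {Y v : ℝ} (hY : 0 < Y) (hv : 0 ≤ v) : ‖exp (-(2 * Y) * v : ℂ)‖ ≤ 1 := by
  rw [Complex.norm_exp, Real.exp_le_one_iff]
  simp
  positivity

lemma gg_norm {Y : ℝ} (hY : 0 < Y) (ab v : ℝ) (hv : 0 ≤ v) : ‖gg Y ab v‖ ≤ 2 * Y := by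
  unfold gg
  rw [norm_mul]
  have h1 := norm_sub_le (exp (-(I * ab) * v)) (exp (-(2 * Y) * v : ℂ))
  have h2 := e1_norm ab v
  have h3 := e2_norm hY hv
  have h4 := be_norm hY ab
  calc _ ≤ Y * 2 := mul_le_mul h4 (by linarith) (norm_nonneg _) hY.le
    _ = 2 * Y := by ring

lemma laplace {Y : ℝ} (hY : 0 < Y) (ab s : ℝ) (hs : 0 < s) :
    1 + ∫ v in Set.Ioi (0 : ℝ), gg Y ab v * (Real.exp (-s * v) : ℝ) =
      (s + Y) * (s + Y + I * ab) / ((s + 2 * Y) * (s + I * ab)) := by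
  have h1 : (-(s + I * ab) : ℂ).re < 0 := by simpa using hs
  have h2 : (-(s + 2 * Y) : ℂ).re < 0 := by simp; linarith
  have hf : ∀ v : ℝ, gg Y ab v * (Real.exp (-s * v) : ℝ) =
      be Y ab * (exp (-(s + I * ab) * v) - exp (-(s + 2 * Y) * v)) := by
    intro v
    unfold gg
    push_cast
    rw [mul_assoc, sub_mul, ← Complex.exp_add, ← Complex.exp_add]
    congr 3 <;> ring
  simp_rw [hf]
  rw [integral_const_mul, integral_sub (integrableOn_exp_mul_complex_Ioi h1 0)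
    (integrableOn_exp_mul_complex_Ioi h2 0), integral_exp_mul_complex_Ioi h1,
    integral_exp_mul_complex_Ioi h2]
  have n1 : (s + I * ab : ℂ) ≠ 0 := by
    intro h; rw [h] at h1; simp at h1
  have n2 : (s + 2 * Y : ℂ) ≠ 0 := by
    intro h; rw [h] at h2; simp at h2
  simp only [Complex.ofReal_zero, mul_zero, Complex.exp_zero]
  rw [eq_div_iff (mul_ne_zero n2 n1)]
  have h3 : ∀ A B : ℂ, A ≠ 0 → B ≠ 0 → (-1 / -A - -1 / -B) * (B * A) = B - A := by
    intro A B hA hB; field_simp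
  have h4 := h3 _ _ n1 n2
  linear_combination be Y ab * h4 + be_mul hY ab

lemma main_term {Y e ab : ℝ} (hp : Par Y e ab) :
    -(exp (-I * (ab / 2 : ℝ)) * ((Y / 2 : ℂ) *
      ((exp (-(I * ab) * (1 - e : ℝ)) - 1) / (-(I * ab))))).im ≤ 1 := by
  obtain ⟨hY, e0, e1, a0, a1, a2⟩ := hp
  have hab : (0 : ℝ) < ab := by linarith
  have hab' : (ab : ℂ) ≠ 0 := by exact_mod_cast hab.ne'
  have key : exp (-I * (ab / 2 : ℝ)) * ((Y / 2 : ℂ) *
      ((exp (-(I * ab) * (1 - e : ℝ)) - 1) / (-(I * ab)))) =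
      ((Y / (2 * ab) : ℝ) : ℂ) * (I * (exp (((-(ab / 2 + ab * (1 - e)) : ℝ) : ℂ) * I) -
        exp (((-(ab / 2) : ℝ) : ℂ) * I))) := by
    have : exp (((-(ab / 2 + ab * (1 - e)) : ℝ) : ℂ) * I) =
        exp (-I * (ab / 2 : ℝ)) * exp (-(I * ab) * (1 - e : ℝ)) := by
      rw [← Complex.exp_add]; congr 1; push_cast; ring
    rw [this]
    have : exp (((-(ab / 2) : ℝ) : ℂ) * I) = exp (-I * (ab / 2 : ℝ)) := by
      congr 1; push_cast; ring
    rw [this]
    have hI : (I : ℂ) ≠ 0 := I_ne_zero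
    push_cast
    field_simp
    linear_combination (-(Y : ℂ) * (exp (-(I * ab * (1 - e))) - 1)) * I_mul_I
  rw [key, Complex.im_ofReal_mul, Complex.mul_im]
  simp only [Complex.I_re, Complex.I_im, zero_mul, one_mul, zero_add, Complex.sub_re,
    Complex.exp_ofReal_mul_I_re, Real.cos_neg]
  have c1 := Real.abs_cos_sub_cos_le (ab / 2) (Real.pi / 2)
  have c2 := Real.abs_cos_sub_cos_le (ab / 2 + ab * (1 - e)) (Real.pi / 2 + Real.pi)
  rw [Real.cos_pi_div_two] at c1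
  rw [Real.cos_add_pi, Real.cos_pi_div_two] at c2
  have hpi := Real.pi_lt_d2
  have he : 0 ≤ ab * e := by positivity
  rw [abs_of_nonpos (show ab / 2 - Real.pi / 2 ≤ 0 by linarith)] at c1
  rw [abs_of_nonpos (show ab / 2 + ab * (1 - e) - (Real.pi / 2 + Real.pi) ≤ 0 by nlinarith)] at c2
  have d1 := (abs_le.1 c1).2
  have d2 := (abs_le.1 c2).1
  have d3 : Real.cos (ab / 2) - Real.cos (ab / 2 + ab * (1 - e)) ≤
      2 * (Real.pi - ab) + ab * e := by nlinarith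
  have d4 : Y * (2 * (Real.pi - ab) + ab * e) ≤ 2 * ab := by nlinarith
  have d5 : Y * (Real.cos (ab / 2) - Real.cos (ab / 2 + ab * (1 - e))) ≤ 2 * ab :=
    (mul_le_mul_of_nonneg_left d3 (by linarith)).trans d4
  have : -(Y / (2 * ab) * (Real.cos (ab / 2 + ab * (1 - e)) - Real.cos (ab / 2))) =
      Y * (Real.cos (ab / 2) - Real.cos (ab / 2 + ab * (1 - e))) / (2 * ab) := by ring
  rw [this, div_le_one (by positivity)]
  exact d5

lemma eh_norm (ab : ℝ) : ‖exp (-I * (ab / 2 : ℝ))‖ = 1 := by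
  rw [Complex.norm_exp]; simp

lemma im_le (ab : ℝ) (z w : ℂ) (c : ℝ) (h : ‖z - w‖ ≤ c) :
    -(exp (-I * (ab / 2 : ℝ)) * z).im ≤ -(exp (-I * (ab / 2 : ℝ)) * w).im + c := by
  have h1 : (exp (-I * (ab / 2 : ℝ)) * z).im = (exp (-I * (ab / 2 : ℝ)) * w).im +
      (exp (-I * (ab / 2 : ℝ)) * (z - w)).im := by
    rw [← Complex.add_im]; congr 1; ring
  have h2 := Complex.abs_im_le_norm (exp (-I * (ab / 2 : ℝ)) * (z - w))
  rw [norm_mul, eh_norm, one_mul] at h2
  have := (abs_le.1 h2).1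
  linarith

lemma limit_bound {Y e ab : ℝ} (hp : Par Y e ab) :
    -(exp (-I * (ab / 2 : ℝ)) *
      ((ph e 0 : ℝ) + ∫ v in Set.Ioi (0 : ℝ), gg Y ab v * (ph e v : ℝ))).im ≤ 6 := by
  have hm := main_term hp
  obtain ⟨hY, e0, e1, a0, a1, a2⟩ := hp
  have hY0 : 0 < Y := by linarith
  have he1 : e ≤ 1 := by nlinarith
  have hab : (0 : ℝ) < ab := by linarith
  have hab' : (ab : ℂ) ≠ 0 := by exact_mod_cast hab.ne'
  have hY' : (Y : ℂ) ≠ 0 := by exact_mod_cast hY0.ne'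
  have hc : Continuous fun v : ℝ => gg Y ab v * (ph e v : ℝ) :=
    (gg_cont Y ab).mul (Complex.continuous_ofReal.comp (ph_cont e))
  have i1 : ∫ v in Set.Ioi (0 : ℝ), gg Y ab v * (ph e v : ℝ) =
      ∫ v in (0 : ℝ)..1, gg Y ab v * (ph e v : ℝ) := by
    rw [intervalIntegral.integral_of_le zero_le_one]
    refine setIntegral_eq_of_subset_of_forall_sdiff_eq_zero measurableSet_Ioi
      Set.Ioc_subset_Ioi_self ?_
    intro x hx
    have hx1 : 1 < x := by
      by_contra h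
      exact hx.2 ⟨hx.1, not_lt.1 h⟩
    rw [ph_zero e0 (by linarith)]; simp
  have i2 := intervalIntegral.integral_add_adjacent_intervals (μ := volume)
    (hc.intervalIntegrable 0 (1 - e)) (hc.intervalIntegrable (1 - e) 1)
  have i3 : ‖∫ v in (1 - e)..1, gg Y ab v * (ph e v : ℝ)‖ ≤ 2 := by
    have := intervalIntegral.norm_integral_le_of_norm_le_const (a := 1 - e) (b := 1) (C := 2 * Y)
      (f := fun v : ℝ => gg Y ab v * (ph e v : ℝ)) (by
        intro x hx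
        rw [Set.uIoc_of_le (by linarith)] at hx
        have hx0 : 0 ≤ x := by linarith [hx.1]
        rw [norm_mul, Complex.norm_real, Real.norm_of_nonneg (ph_nonneg e x)]
        calc _ ≤ 2 * Y * 1 := mul_le_mul (gg_norm hY0 ab x hx0) (ph_le e x) (ph_nonneg e x)
              (by positivity)
          _ = 2 * Y := mul_one _)
    rw [show (1 : ℝ) - (1 - e) = e by ring, abs_of_pos e0] at this
    nlinarith
  have n1 : (-(I * ab) : ℂ) ≠ 0 := neg_ne_zero.2 (mul_ne_zero I_ne_zero hab')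
  have n2 : (-(2 * Y) : ℂ) ≠ 0 := neg_ne_zero.2 (mul_ne_zero two_ne_zero hY')
  have i4 : ∫ v in (0 : ℝ)..(1 - e), gg Y ab v * (ph e v : ℝ) =
      be Y ab * ((exp (-(I * ab) * (1 - e : ℝ)) - 1) / (-(I * ab)) -
        (exp (-(2 * Y) * (1 - e : ℝ)) - 1) / (-(2 * Y))) := by
    have : ∫ v in (0 : ℝ)..(1 - e), gg Y ab v * (ph e v : ℝ) =
        ∫ v in (0 : ℝ)..(1 - e), gg Y ab v := by
      refine intervalIntegral.integral_congr ?_
      intro x hx
      rw [Set.uIcc_of_le (by linarith)] at hx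
      simp only [ph_one e0 hx.2]; simp
    rw [this]
    unfold gg
    rw [intervalIntegral.integral_const_mul, intervalIntegral.integral_sub
      (Continuous.intervalIntegrable (by fun_prop) _ _)
      (Continuous.intervalIntegrable (by fun_prop) _ _),
      integral_exp_mul_complex n1, integral_exp_mul_complex n2]
    simp
  set E1 : ℂ := exp (-(I * ab) * (1 - e : ℝ)) - 1 with hE1
  set E2 : ℂ := exp (-(2 * Y) * (1 - e : ℝ)) - 1 with hE2
  have b1 : ‖E1‖ ≤ 2 := by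
    have := norm_sub_le (exp (-(I * ab) * (1 - e : ℝ))) 1
    rw [e1_norm, norm_one] at this
    linarith
  have b2 : ‖E2‖ ≤ 2 := by
    have := norm_sub_le (exp (-(2 * Y) * (1 - e : ℝ))) 1
    have h3 := e2_norm hY0 (show 0 ≤ 1 - e by linarith)
    rw [norm_one] at this
    linarith
  have n3 := den_ne hY0 ab
  have b3 : ‖be Y ab * (E2 / (-(2 * Y)))‖ ≤ 1 := by
    rw [norm_mul, norm_div, norm_neg, norm_mul, Complex.norm_real, Real.norm_of_nonneg hY0.le,
      Complex.norm_two]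
    calc _ ≤ Y * (2 / (2 * Y)) := mul_le_mul (be_norm hY0 ab) (by gcongr) (by positivity) hY0.le
      _ = 1 := by field_simp
  have b4 : ‖(be Y ab - Y / 2) * (E1 / (-(I * ab)))‖ ≤ 1 / 2 := by
    have : (be Y ab - Y / 2) * (E1 / (-(I * ab))) = (Y / 2 : ℂ) * E1 / (2 * Y - I * ab) := by
      rw [eq_div_iff n3]
      have h5 : E1 / (-(I * ab)) * (-(I * ab)) = E1 := div_mul_cancel₀ _ n1
      linear_combination E1 / (-(I * ab)) * be_mul hY0 ab + (Y / 2 : ℂ) * h5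
    rw [this, norm_div, norm_mul, norm_div, Complex.norm_real, Real.norm_of_nonneg hY0.le,
      Complex.norm_two, div_le_iff₀ (norm_pos_iff.2 n3)]
    have := den_norm Y ab
    nlinarith
  rw [i1, ← i2, i4, ph_one e0 (by linarith)]
  refine (im_le ab _ ((Y / 2 : ℂ) * (E1 / (-(I * ab))) + 1) (7 / 2) ?_).trans ?_
  · set R := ∫ v in (1 - e)..1, gg Y ab v * (ph e v : ℝ)
    have : ((1 : ℝ) : ℂ) + (be Y ab * (E1 / (-(I * ab)) - E2 / (-(2 * Y))) + R) -
        ((Y / 2 : ℂ) * (E1 / (-(I * ab))) + 1) =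
        ((be Y ab - Y / 2) * (E1 / (-(I * ab))) - be Y ab * (E2 / (-(2 * Y)))) + R := by
      push_cast; ring
    rw [this]
    have t1 := norm_add_le ((be Y ab - Y / 2) * (E1 / (-(I * ab))) - be Y ab * (E2 / (-(2 * Y)))) R
    have t2 := norm_sub_le ((be Y ab - Y / 2) * (E1 / (-(I * ab)))) (be Y ab * (E2 / (-(2 * Y))))
    linarith
  · have := im_le ab ((Y / 2 : ℂ) * (E1 / (-(I * ab))) + 1) ((Y / 2 : ℂ) * (E1 / (-(I * ab)))) 1
      (by simp)
    linarith

/-- The coefficients of the diagonal sum. -/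
noncomputable def cc (Y ab L : ℝ) (n : ℕ) : ℂ :=
  rc (Y / L : ℝ) (I * (ab / L : ℝ)) n * (starRingEnd ℂ) (rc (Y / L : ℝ) 0 n)

lemma cc_norm (h1 : Ar1Stmt) {Y L : ℝ} (h : 0 ≤ Y / L) (ab : ℝ) (n : ℕ) :
    ‖cc Y ab L n‖ ≤ ‖rc (Y / L : ℝ) (I * (ab / L : ℝ)) n‖ := by
  obtain ⟨a, b, -⟩ := h1.2.2.2.2.1 (Y / L) n h
  unfold cc
  rw [norm_mul, Complex.norm_conj]
  exact mul_le_of_le_one_right (norm_nonneg _) (a.trans b)

lemma sharp (h1 : Ar1Stmt) {Y e ab T W : ℝ} (he : 0 < e) (hY : 0 ≤ Y) (hT : 1 < T)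
    (hW : ∑ n ∈ win ⌊T⌋₊ (T ^ (1 - e)) (e / 2 * Real.log T),
      ‖rc (Y / Real.log T : ℝ) (I * (ab / Real.log T : ℝ)) n‖ / n ≤ W) :
    ‖∑ n ∈ Finset.Icc 1 ⌊T ^ (1 - e)⌋₊, cc Y ab (Real.log T) n / n -
      ∑' n : ℕ, cc Y ab (Real.log T) n * (ph e (Real.log n / Real.log T) / n : ℝ)‖ ≤ W := by
  have hL : 0 < Real.log T := Real.log_pos hT
  have hT0 : 0 < T := by linarith
  have hx : 0 < T ^ (1 - e) := Real.rpow_pos_of_pos hT0 _
  have hxT : T ^ (1 - e) ≤ T := by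
    calc T ^ (1 - e) ≤ T ^ (1 : ℝ) := Real.rpow_le_rpow_of_exponent_le hT.le (by linarith)
      _ = T := Real.rpow_one T
  have hlx : Real.log (T ^ (1 - e)) = (1 - e) * Real.log T := Real.log_rpow hT0 _
  have hz : ∀ n : ℕ, 1 ≤ n → T ^ (1 - e) * Real.exp (e / 2 * Real.log T) < n →
      ph e (Real.log n / Real.log T) = 0 := by
    intro n hn h
    refine ph_zero he ?_
    rw [le_div_iff₀ hL]
    have := Real.log_le_log (by positivity) h.le
    rw [Real.log_mul hx.ne' (Real.exp_pos _).ne', Real.log_exp, hlx] at this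
    linarith
  have hy : T ^ (1 - e) * Real.exp (e / 2 * Real.log T) ≤ T := by
    rw [Real.rpow_def_of_pos hT0, ← Real.exp_add]
    calc _ ≤ Real.exp (Real.log T) := Real.exp_le_exp.2 (by nlinarith)
      _ = T := Real.exp_log hT0
  set A := Finset.Icc 1 ⌊T ^ (1 - e)⌋₊ with hA
  set B := win ⌊T⌋₊ (T ^ (1 - e)) (e / 2 * Real.log T) with hB
  have hd : Disjoint A B := by
    rw [Finset.disjoint_left]
    intro n ha hb
    rw [hA, Finset.mem_Icc, Nat.le_floor_iff hx.le] at ha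
    rw [hB, win, Finset.mem_filter] at hb
    linarith [ha.2, hb.2.1]
  rw [tsum_eq_sum (s := A ∪ B), Finset.sum_union hd]
  · have e1 : ∑ n ∈ A, cc Y ab (Real.log T) n * (ph e (Real.log n / Real.log T) / n : ℝ) =
        ∑ n ∈ A, cc Y ab (Real.log T) n / n := by
      refine Finset.sum_congr rfl fun n hn => ?_
      rw [hA, Finset.mem_Icc, Nat.le_floor_iff hx.le] at hn
      have hn0 : (0 : ℝ) < n := by exact_mod_cast hn.1
      rw [ph_one he]
      · push_cast; ring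
      · rw [div_le_iff₀ hL, ← hlx]
        exact Real.log_le_log hn0 hn.2
    rw [e1, sub_add_cancel_left, norm_neg]
    refine (norm_sum_le _ _).trans ((Finset.sum_le_sum fun n hn => ?_).trans hW)
    rw [norm_mul, Complex.norm_real,
      Real.norm_of_nonneg (div_nonneg (ph_nonneg _ _) (Nat.cast_nonneg n)), ← mul_div_assoc]
    refine div_le_div_of_nonneg_right ?_ (Nat.cast_nonneg n)
    exact (mul_le_of_le_one_right (norm_nonneg _) (ph_le _ _)).trans
      (cc_norm h1 (div_nonneg hY hL.le) ab n)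
  · intro n hn
    rcases Nat.eq_zero_or_pos n with rfl | hn0
    · simp
    rw [Finset.mem_union, not_or, hA, hB, win, Finset.mem_filter, Finset.mem_Icc, Finset.mem_Icc,
      Nat.le_floor_iff hx.le, Nat.le_floor_iff hT0.le] at hn
    rw [hz n hn0]
    · simp
    by_contra hc
    rw [not_lt] at hc
    refine hn.2 ⟨⟨hn0, hc.trans hy⟩, ?_, hc⟩
    by_contra hc2
    exact hn.1 ⟨hn0, not_lt.1 hc2⟩

theorem s1 : Ar1Stmt → Ar2Stmt → RLStmt → KarStmt → M1Stmt → S1Stmt := by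
  intro h1 h2 hrl hkar hm1
  obtain ⟨C, hC, -, -, -, h4⟩ := h2
  refine ⟨C * 8 + 7, by linarith, fun Y e ab hp => ?_⟩
  have hlim := limit_bound hp
  obtain ⟨hY, e0, e1, a0, a1, a2⟩ := hp
  have hY0 : 0 < Y := by linarith
  have he1 : e ≤ 1 := by nlinarith
  have hab : (0 : ℝ) ≤ ab := by linarith
  have hk := hkar (cc Y ab) (gg Y ab) (2 * Y) (C * Y) (gg_cont Y ab) (gg_norm hY0 ab)
    (fun L => by unfold cc; rw [(h1.2.2.2.1 _ _).1, zero_mul])
    (fun k hk => by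
      have hk0 : (0 : ℝ) < k := by exact_mod_cast hk
      rw [laplace hY0 ab k hk0]
      exact hrl Y ab k hY0 hk0)
    (by
      filter_upwards [eventually_ge_atTop (Y ^ 2)] with L hL
      obtain ⟨s1, s2, -⟩ := h4 L Y ab hY hL hab a1
      have hL0 : 0 ≤ L := le_trans (by positivity) hL
      have hle : ∀ n : ℕ, ‖cc Y ab L n‖ * Real.exp (-(1 + 1 / L) * Real.log n) ≤
          ‖rc (Y / L : ℝ) (I * (ab / L : ℝ)) n‖ * Real.exp (-(1 + 1 / L) * Real.log n) :=
        fun n => mul_le_mul_of_nonneg_right (cc_norm h1 (div_nonneg hY0.le hL0) ab n)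
          (Real.exp_pos _).le
      have s3 := Summable.of_nonneg_of_le (fun n => by positivity) hle s1
      exact ⟨s3, (s3.tsum_le_tsum hle s1).trans s2⟩)
    (ph e) (1 - e / 2) (ph_cont e) (fun v hv => ph_zero e0 hv)
  have hk2 := (Metric.tendsto_nhds.1 hk) 1 one_pos
  have hm := hm1 Y (e / 2) (by linarith) (by positivity) (by nlinarith)
  have hall := (hk2.and hm).and (eventually_ge_atTop (Y ^ 2))
  filter_upwards [Real.tendsto_log_atTop.eventually hall, eventually_gt_atTop (1 : ℝ)]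
    with T hT hT1
  obtain ⟨⟨k1, k2⟩, k3⟩ := hT
  have hT0 : 0 < T := by linarith
  have hfl : Real.log (⌊T⌋₊ : ℕ) ≤ Real.log T :=
    Real.log_le_log (by exact_mod_cast Nat.floor_pos.2 hT1.le) (Nat.floor_le hT0.le)
  have hW := (h4 (Real.log T) Y ab hY k3 hab a1).2.2 ⌊T⌋₊ 8 (e / 2 * Real.log T)
    (fun x hx => k2 _ x hfl hx) (T ^ (1 - e)) (Real.rpow_pos_of_pos hT0 _)
  have hs := sharp h1 e0 hY0.le hT1 hW
  rw [dist_eq_norm] at k1
  have t1 := im_le ab _ _ _ hs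
  have t2 := im_le ab _ _ _ k1.le
  change -(exp (-I * (ab / 2 : ℝ)) *
    ∑ n ∈ Finset.Icc 1 ⌊T ^ (1 - e)⌋₊, cc Y ab (Real.log T) n / n).im ≤ _
  linarith

end Pool.Agent.MP_ca0a54_nt.H79
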